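import Pool.Agent.H18.NFA.RDA

/-!
# NFA, row CNS: the number of the classes of the short equations
-/

set_option autoImplicit false

namespace Pool.NFA

open Polynomial NumberField Pool.T1 Pool.NF

namespace CnsAux

variable {K : Type} [Field K]

lemma comp_comp_neg {R : Type} [CommRing R] (p : R[X]) (c : R) :
    (p.comp (X - C c)).comp (X + C c) = p := by
  rw [comp_assoc]
  have : (X - C c : R[X]).comp (X + C c) = X := by
    rw [sub_comp, X_comp, C_comp]
    ring
  rw [this, comp_X]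

lemma inj_comp {R : Type} [CommRing R] (c : R) {p q : R[X]}
    (h : p.comp (X - C c) = q.comp (X - C c)) : p = q := by
  rw [← comp_comp_neg p c, h, comp_comp_neg]

lemma irr_comp {f : K[X]} (c : K) (h : Irreducible f) : Irreducible (f.comp (X - C c)) := by
  have h1 := (MulEquiv.irreducible_iff (algEquivAevalXAddC (-c) : K[X] ≃ₐ[K] K[X])
    (x := f)).mpr h
  have h2 : (algEquivAevalXAddC (-c) : K[X] ≃ₐ[K] K[X]) f = f.comp (X - C c) := by
    rw [algEquivAevalXAddC_apply, comp, aeval_def, map_neg, sub_eq_add_neg]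
    rfl
  rwa [h2] at h1

lemma dvd_comp {f p : K[X]} (c : K) (h : f.comp (X - C c) ∣ p.comp (X - C c)) : f ∣ p := by
  obtain ⟨q, hq⟩ := h
  refine ⟨q.comp (X + C c), ?_⟩
  rw [← comp_comp_neg p c, hq, mul_comp, comp_comp_neg]

lemma toF_comp {R : Type} [CommRing R] (b d c : R) :
    (X ^ 3 + C 0 * X ^ 2 + C b * X + C d : R[X]).comp (X - C c) =
      X ^ 3 + C (-(3 * c)) * X ^ 2 + C (3 * c ^ 2 + b) * X + C (-c ^ 3 - b * c + d) := by
  simp only [add_comp, mul_comp, pow_comp, X_comp, C_comp, map_neg, map_add, map_mul, map_pow,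
    map_sub, map_zero, map_ofNat, zero_comp]
  ring

end CnsAux

open CnsAux RdaAux in
theorem cns (hB : CNBStmt) (hT : TRAAStmt) : CNSStmt := by
  classical
  intro K _ _
  obtain ⟨C₀, hC₀⟩ := hB K
  obtain ⟨c, hc, hL, -⟩ := bxl K
  refine ⟨C₀ * 3 ^ (6 * dg K) / c, ?_⟩
  intro Y A hY hA
  have hY0 : (0 : ℝ) < Y := by linarith only [hY]
  have hfin := bx_finite (K := K) Y
  set B : Finset (𝓞 K) := hfin.toFinset with hBdef
  have hBmem : ∀ x, x ∈ B ↔ x ∈ Bx K Y := fun x => hfin.mem_toFinset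
  set φ : ((𝓞 K)[X] × K[X]) × 𝓞 K → (𝓞 K)[X] × K[X] :=
    fun z => (z.1.1.comp (X - C z.2), z.1.2.comp (X - C (z.2 : K))) with hφ
  have hfk : ∀ (f : (𝓞 K)[X]) (r : 𝓞 K),
      fk K (f.comp (X - C r)) = (fk K f).comp (X - C (r : K)) := by
    intro f r
    unfold fk
    rw [Polynomial.map_comp, Polynomial.map_sub, map_X, map_C]
  -- the coefficients
  have hnorm : ∀ f ∈ ShtN K Y, ∀ r : 𝓞 K, f.comp (X - C r) =
      ALLN.toF (-(3 * r), 3 * r ^ 2 + f.coeff 1, -r ^ 3 - f.coeff 1 * r + f.coeff 0) := by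
    intro f hf r
    obtain ⟨⟨h1, h2, -⟩, h0⟩ := hf
    have h3 := ALLN.surj h1 h2
    rw [h0] at h3
    unfold ALLN.toF at h3 ⊢
    simp only at h3 ⊢
    conv_lhs => rw [← h3]
    exact toF_comp _ _ _
  have hsht : ∀ z ∈ A, z.1 ∈ ShtN K Y := fun z hz => (hA.1 z hz).1
  have hcoef : ∀ z ∈ A, ∀ w ∈ A, ∀ r s : 𝓞 K, z.1.comp (X - C r) = w.1.comp (X - C s) →
      r = s := by
    intro z hz w hw r s h
    rw [hnorm _ (hsht z hz), hnorm _ (hsht w hw)] at h
    have h1 := congrArg Prod.fst (ALLN.inj h)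
    simp only [neg_inj] at h1
    exact mul_left_cancel₀ (by norm_num) h1
  have hinj : Set.InjOn φ ((A ×ˢ B : Finset (((𝓞 K)[X] × K[X]) × 𝓞 K)) :
      Set (((𝓞 K)[X] × K[X]) × 𝓞 K)) := by
    rintro ⟨z, r⟩ hz ⟨w, s⟩ hw h
    rw [Finset.mem_coe, Finset.mem_product] at hz hw
    simp only [hφ, Prod.mk.injEq] at h
    have hrs := hcoef z hz.1 w hw.1 r s h.1
    rw [hrs] at h
    have h1 := inj_comp s h.1
    have h2 := inj_comp _ h.2
    rw [hrs]
    rw [Prod.ext h1 h2]
  have hcard : ((A ×ˢ B).image φ).card = A.card * B.card := by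
    rw [Finset.card_image_of_injOn hinj, Finset.card_product]
  have hPrs : Prs (AllN K (3 * Y)) ((A ×ˢ B).image φ) := by
    constructor
    · intro z' hz'
      rw [Finset.mem_image] at hz'
      obtain ⟨⟨z, r⟩, hzr, rfl⟩ := hz'
      rw [Finset.mem_product] at hzr
      obtain ⟨hz, hr⟩ := hzr
      simp only at hz hr
      obtain ⟨a1, a2, a3⟩ := hA.1 z hz
      rw [hBmem] at hr
      refine ⟨?_, ?_, ?_⟩
      · simp only [hφ]
        rw [hnorm _ a1]
        obtain ⟨⟨h1, h2, h3⟩, h0⟩ := a1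
        have b2 := h3 2 (by omega)
        have b3 := h3 3 (by omega)
        simp only [show (3 : ℕ) - 2 = 1 from rfl, show (3 : ℕ) - 3 = 0 from rfl] at b2 b3
        have hneg : ∀ {a : 𝓞 K} {ρ : ℝ}, a ∈ Bx K ρ → -a ∈ Bx K ρ := by
          intro a ρ ha σ
          have h4 : ((-a : 𝓞 K) : K) = -(a : K) := rfl
          rw [h4, map_neg, norm_neg]
          exact ha σ
        have hthree : (3 : 𝓞 K) ∈ Bx K 3 := by
          intro σ
          have h4 : ((3 : 𝓞 K) : K) = 3 := by
            exact map_ofNat (algebraMap (𝓞 K) K) 3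
          rw [h4, map_ofNat]
          norm_num
        have hr2 : r ^ 2 ∈ Bx K (Y ^ 2) := by
          rw [pow_two, pow_two]
          exact RdaAux.mul_mem hr hr
        have hr3 : r ^ 3 ∈ Bx K (Y ^ 3) := by
          have e1 : r ^ 3 = r ^ 2 * r := by ring
          have e2 : Y ^ 3 = Y ^ 2 * Y := by ring
          rw [e1, e2]
          exact RdaAux.mul_mem hr2 hr
        rw [ALLN.all_eq]
        refine ⟨_, ⟨?_, ?_, ?_⟩, rfl⟩
        · exact hneg (mul_mem hthree hr)
        · refine mono (add_mem (mul_mem hthree hr2) b2) ?_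
          nlinarith only [hY]
        · have e1 : -r ^ 3 - z.1.coeff 1 * r + z.1.coeff 0 =
              -(r ^ 3) + -(z.1.coeff 1 * r) + z.1.coeff 0 := by ring
          simp only
          rw [e1]
          refine mono (add_mem (add_mem (hneg hr3) (hneg (mul_mem b2 hr))) b3) ?_
          have : (0 : ℝ) ≤ Y ^ 3 := by positivity
          nlinarith only [this]
      · simp only [hφ]
        rw [hfk]
        exact irr_comp _ a2
      · simp only [hφ]
        rw [hfk]
        exact hT K (fk K z.1) z.2 (r : K) ((a1.1.1).map _) a3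
    · intro z' hz' w' hw' h1 h2
      rw [Finset.mem_image] at hz' hw'
      obtain ⟨⟨z, r⟩, hzr, rfl⟩ := hz'
      obtain ⟨⟨w, s⟩, hws, rfl⟩ := hw'
      rw [Finset.mem_product] at hzr hws
      obtain ⟨hz, hr⟩ := hzr
      obtain ⟨hw, hs⟩ := hws
      simp only at hz hr hw hs
      simp only [hφ] at h1 h2
      have hrs := hcoef z hz w hw r s h1
      rw [hrs] at h1 h2
      have h3 := inj_comp s h1
      obtain ⟨t, ht⟩ := h2
      rw [hfk] at ht
      have h4 : z.2.comp (X - C (s : K)) - w.2.comp (X - C (s : K)) * t ^ 2 =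
          (z.2 - w.2 * (t.comp (X + C (s : K))) ^ 2).comp (X - C (s : K)) := by
        rw [sub_comp, mul_comp, pow_comp]
        congr 3
        rw [comp_assoc]
        have : (X + C (s : K) : K[X]).comp (X - C (s : K)) = X := by
          rw [add_comp, X_comp, C_comp]
          ring
        rw [this, comp_X]
      rw [h4] at ht
      have h5 := dvd_comp _ ht
      have h6 := hA.2 z hz w hw h3 ⟨_, h5⟩
      rw [h6, hrs]
  have hmain := hC₀ (3 * Y) _ (by linarith only [hY]) hPrs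
  rw [hcard] at hmain
  have hBcard : (B.card : ℝ) = ((Bx K Y).ncard : ℝ) := by
    rw [hBdef, Set.ncard_eq_toFinset_card _ hfin]
  have hL1 := hL Y hY
  rw [← hBcard] at hL1
  push_cast at hmain
  have hYn : 0 < Y ^ dg K := by positivity
  have h1 : (A.card : ℝ) * (c * Y ^ dg K) ≤ C₀ * 3 ^ (6 * dg K) * Y ^ (5 * dg K) * Y ^ dg K := by
    calc (A.card : ℝ) * (c * Y ^ dg K) ≤ A.card * B.card :=
          mul_le_mul_of_nonneg_left hL1 (Nat.cast_nonneg _)
      _ ≤ C₀ * (3 * Y) ^ (6 * dg K) := hmain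
      _ = C₀ * 3 ^ (6 * dg K) * Y ^ (5 * dg K) * Y ^ dg K := by
          rw [mul_pow]
          ring
  have h2 : (A.card : ℝ) * c ≤ C₀ * 3 ^ (6 * dg K) * Y ^ (5 * dg K) := by
    rw [← mul_assoc] at h1
    exact le_of_mul_le_mul_right h1 hYn
  calc (A.card : ℝ) = A.card * c / c := by field_simp
    _ ≤ C₀ * 3 ^ (6 * dg K) * Y ^ (5 * dg K) / c := div_le_div_of_nonneg_right h2 hc.le
    _ = C₀ * 3 ^ (6 * dg K) / c * Y ^ (5 * dg K) := by ring

end Pool.NFA
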