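import Pool.Agent.H33.NFA.A
import Pool.Agent.H2.NF.ALLN

/-!
# NFA, row RDA: the reducible cubic polynomials
-/

set_option autoImplicit false

namespace Pool.NFA

open Polynomial NumberField Pool.T1 Pool.NF

namespace RdaAux

variable {K : Type} [Field K] [NumberField K]

lemma add_mem {a b : 𝓞 K} {ρ τ : ℝ} (ha : a ∈ Bx K ρ) (hb : b ∈ Bx K τ) :
    a + b ∈ Bx K (ρ + τ) := by
  intro σ
  have h1 := ha σ
  have h2 := hb σ
  have h3 : ((a + b : 𝓞 K) : K) = (a : K) + (b : K) := rfl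
  rw [h3, map_add]
  exact (norm_add_le _ _).trans (add_le_add h1 h2)

omit [NumberField K] in
lemma mul_mem {a b : 𝓞 K} {ρ τ : ℝ} (ha : a ∈ Bx K ρ) (hb : b ∈ Bx K τ) :
    a * b ∈ Bx K (ρ * τ) := by
  intro σ
  have h1 := ha σ
  have h2 := hb σ
  have h3 : ((a * b : 𝓞 K) : K) = (a : K) * (b : K) := rfl
  rw [h3, map_mul, norm_mul]
  exact mul_le_mul h1 h2 (norm_nonneg _) ((norm_nonneg _).trans h1)

omit [NumberField K] in
lemma mono {a : 𝓞 K} {ρ τ : ℝ} (ha : a ∈ Bx K ρ) (h : ρ ≤ τ) : a ∈ Bx K τ :=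
  fun σ => (ha σ).trans h

/-- the root -/
lemma exists_root {f : (𝓞 K)[X]} (hf : f.Monic) (hn : f.natDegree = 3)
    (hi : ¬ Irreducible (fk K f)) : ∃ r : 𝓞 K, f.eval r = 0 := by
  have hinj : Function.Injective (algebraMap (𝓞 K) K) := IsFractionRing.injective _ _
  have hm : (fk K f).Monic := hf.map _
  have hd : (fk K f).natDegree = 3 := by
    rw [natDegree_map_eq_of_injective hinj]
    exact hn
  have h1 : ¬ (fk K f).roots = 0 := by
    intro h
    apply hi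
    rw [hm.irreducible_iff_roots_eq_zero_of_degree_le_three (by rw [hd]; norm_num)
      (by rw [hd])]
    exact h
  obtain ⟨x, hx⟩ := Multiset.exists_mem_of_ne_zero h1
  have hx0 : (fk K f).eval x = 0 := (mem_roots'.mp hx).2
  have hx1 : aeval x f = 0 := by
    rw [aeval_def, ← eval_map]
    exact hx0
  have hint : IsIntegral (𝓞 K) x := ⟨f, hf, by rw [← aeval_def]; exact hx1⟩
  obtain ⟨r, hr⟩ := IsIntegrallyClosed.isIntegral_iff.mp hint
  refine ⟨r, hinj ?_⟩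
  rw [map_zero, ← hx0, ← hr]
  unfold fk
  rw [eval_map_algebraMap, aeval_algebraMap_apply_eq_algebraMap_eval]

lemma eval_cubic {f : (𝓞 K)[X]} (hf : f.Monic) (hn : f.natDegree = 3) (r : 𝓞 K) :
    f.eval r = r ^ 3 + f.coeff 2 * r ^ 2 + f.coeff 1 * r + f.coeff 0 := by
  have h := ALLN.surj hf hn
  conv_lhs => rw [← h]
  unfold ALLN.toF
  simp only [eval_add, eval_mul, eval_pow, eval_X, eval_C]

/-- the bound for the root -/
lemma root_mem {f : (𝓞 K)[X]} {Y : ℝ} (hY : 1 ≤ Y) (hf : f ∈ AllN K Y) {r : 𝓞 K}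
    (hr : f.eval r = 0) : r ∈ Bx K (2 * Y) := by
  obtain ⟨h1, h2, h3⟩ := hf
  have a1 := h3 1 (by omega)
  have a2 := h3 2 (by omega)
  have a3 := h3 3 (by omega)
  intro σ
  have b1 := a1 σ
  have b2 := a2 σ
  have b3 := a3 σ
  simp only [show (3 : ℕ) - 1 = 2 from rfl, show (3 : ℕ) - 2 = 1 from rfl,
    show (3 : ℕ) - 3 = 0 from rfl, pow_one] at b1 b2 b3
  rw [eval_cubic h1 h2] at hr
  have hr' : (r : K) ^ 3 = -((f.coeff 2 : K) * (r : K) ^ 2 + (f.coeff 1 : K) * (r : K) +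
      (f.coeff 0 : K)) := by
    have h5 := congrArg (algebraMap (𝓞 K) K) hr
    simp only [map_add, map_mul, map_pow, map_zero] at h5
    linear_combination h5
  have h6 := congrArg (fun z => ‖σ z‖) hr'
  simp only [map_neg, map_add, map_mul, map_pow, norm_neg, norm_pow] at h6
  set t : ℝ := ‖σ (r : K)‖ with ht
  have ht0 : 0 ≤ t := norm_nonneg _
  by_contra hlt
  rw [not_le] at hlt
  have hY0 : 0 < Y := by linarith only [hY]
  have h7 : t ^ 3 ≤ Y * t ^ 2 + Y ^ 2 * t + Y ^ 3 := by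
    rw [h6]
    refine (norm_add_le _ _).trans (add_le_add ((norm_add_le _ _).trans (add_le_add ?_ ?_)) b3)
    · rw [norm_mul, norm_pow]
      exact mul_le_mul_of_nonneg_right b1 (by positivity)
    · rw [norm_mul]
      exact mul_le_mul_of_nonneg_right b2 ht0
  have h8 : Y * t ^ 2 + Y ^ 2 * t + Y ^ 3 < t ^ 3 := by
    have c1 : 0 < t - 2 * Y := by linarith only [hlt]
    have c2 : t ^ 3 - (Y * t ^ 2 + Y ^ 2 * t + Y ^ 3) =
        (t - 2 * Y) * (t ^ 2 + Y * t + Y ^ 2) + Y ^ 3 := by ring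
    have c3 : 0 < (t - 2 * Y) * (t ^ 2 + Y * t + Y ^ 2) + Y ^ 3 := by positivity
    linarith only [c2, c3]
  linarith only [h7, h8]

/-- the polynomial with the root `r` -/
noncomputable def rdf (p : 𝓞 K × 𝓞 K × 𝓞 K) : (𝓞 K)[X] :=
  (X - C p.1) * (X ^ 2 + C p.2.1 * X + C p.2.2)

lemma fac {f : (𝓞 K)[X]} (hf : f.Monic) (hn : f.natDegree = 3) {r : 𝓞 K}
    (hr : f.eval r = 0) : f = rdf (r, f.coeff 2 + r, f.coeff 1 + r * (f.coeff 2 + r)) := by
  have h := ALLN.surj hf hn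
  rw [eval_cubic hf hn] at hr
  have h2 : f.coeff 0 = -(r ^ 3 + f.coeff 2 * r ^ 2 + f.coeff 1 * r) := by
    linear_combination hr
  conv_lhs => rw [← h]
  unfold ALLN.toF rdf
  rw [h2]
  simp only [map_neg, map_add, map_mul, map_pow]
  ring

end RdaAux

open RdaAux in
theorem rda : RDAStmt := by
  intro K _ _
  obtain ⟨C, hC, hU⟩ := ALLN.upper (K := K)
  have hC0 : 0 < C := by linarith only [hC]
  refine ⟨C ^ 3 * 42 ^ dg K, ?_⟩
  intro Y hY
  have hY0 : (0 : ℝ) < Y := by linarith only [hY]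
  have hY2 : (1 : ℝ) ≤ Y ^ 2 := one_le_pow₀ hY
  have U1 := hU (2 * Y) (by linarith only [hY])
  have U2 := hU (3 * Y) (by linarith only [hY])
  have U3 := hU (7 * Y ^ 2) (by linarith only [hY2])
  have hf1 := bx_finite (K := K) (2 * Y)
  have hf2 := bx_finite (K := K) (3 * Y)
  have hf3 := bx_finite (K := K) (7 * Y ^ 2)
  have hmem : ∀ f ∈ AllN K Y, ¬ Irreducible (fk K f) → ∃ r ∈ Bx K (2 * Y),
      f.coeff 2 + r ∈ Bx K (3 * Y) ∧ f.coeff 1 + r * (f.coeff 2 + r) ∈ Bx K (7 * Y ^ 2) ∧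
      f = rdf (r, f.coeff 2 + r, f.coeff 1 + r * (f.coeff 2 + r)) := by
    intro f hf hi
    obtain ⟨r, hr⟩ := exists_root hf.1 hf.2.1 hi
    have hr2 := root_mem hY hf hr
    have a1 := hf.2.2 1 (by omega)
    have a2 := hf.2.2 2 (by omega)
    simp only [show (3 : ℕ) - 1 = 2 from rfl, show (3 : ℕ) - 2 = 1 from rfl, pow_one] at a1 a2
    have h3 : f.coeff 2 + r ∈ Bx K (3 * Y) := by
      refine mono (add_mem a1 hr2) ?_
      linarith only [hY]
    have h7 : f.coeff 1 + r * (f.coeff 2 + r) ∈ Bx K (7 * Y ^ 2) := by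
      refine mono (add_mem a2 (mul_mem hr2 h3)) ?_
      nlinarith only [hY]
    exact ⟨r, hr2, h3, h7, fac hf.1 hf.2.1 hr⟩
  constructor
  · have hsub : {f ∈ AllN K Y | ¬ Irreducible (fk K f)} ⊆
        rdf '' (Bx K (2 * Y) ×ˢ (Bx K (3 * Y) ×ˢ Bx K (7 * Y ^ 2))) := by
      rintro f ⟨hf, hi⟩
      obtain ⟨r, h1, h2, h3, h4⟩ := hmem f hf hi
      exact ⟨_, ⟨h1, h2, h3⟩, h4.symm⟩
    have hfin : (Bx K (2 * Y) ×ˢ (Bx K (3 * Y) ×ˢ Bx K (7 * Y ^ 2))).Finite :=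
      hf1.prod (hf2.prod hf3)
    have h1 := (Set.ncard_le_ncard hsub (hfin.image _)).trans (Set.ncard_image_le hfin)
    rw [Set.ncard_prod, Set.ncard_prod] at h1
    calc ({f ∈ AllN K Y | ¬ Irreducible (fk K f)}.ncard : ℝ) ≤
          (Bx K (2 * Y)).ncard * ((Bx K (3 * Y)).ncard * (Bx K (7 * Y ^ 2)).ncard) := by
          exact_mod_cast h1
      _ ≤ (C * (2 * Y) ^ dg K) * ((C * (3 * Y) ^ dg K) * (C * (7 * Y ^ 2) ^ dg K)) :=
          mul_le_mul U1 (mul_le_mul U2 U3 (Nat.cast_nonneg _) (by positivity))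
            (by positivity) (by positivity)
      _ = C ^ 3 * 42 ^ dg K * Y ^ (4 * dg K) := by
          have : (42 : ℝ) = 2 * (3 * 7) := by norm_num
          rw [this]
          simp only [mul_pow]
          ring
  · have hsub : {f ∈ ShtN K Y | ¬ Irreducible (fk K f)} ⊆
        (fun p : 𝓞 K × 𝓞 K => rdf (p.1, p.1, p.2)) '' (Bx K (2 * Y) ×ˢ Bx K (7 * Y ^ 2)) := by
      rintro f ⟨⟨hf, h0⟩, hi⟩
      obtain ⟨r, h1, h2, h3, h4⟩ := hmem f hf hi
      rw [h0, zero_add] at h2 h3 h4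
      exact ⟨(r, f.coeff 1 + r * r), ⟨h1, h3⟩, h4.symm⟩
    have hfin : (Bx K (2 * Y) ×ˢ Bx K (7 * Y ^ 2)).Finite := hf1.prod hf3
    have h1 := (Set.ncard_le_ncard hsub (hfin.image _)).trans (Set.ncard_image_le hfin)
    rw [Set.ncard_prod] at h1
    calc ({f ∈ ShtN K Y | ¬ Irreducible (fk K f)}.ncard : ℝ) ≤
          (Bx K (2 * Y)).ncard * (Bx K (7 * Y ^ 2)).ncard := by exact_mod_cast h1
      _ ≤ (C * (2 * Y) ^ dg K) * (C * (7 * Y ^ 2) ^ dg K) :=
          mul_le_mul U1 U3 (Nat.cast_nonneg _) (by positivity)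
      _ = C ^ 2 * 14 ^ dg K * Y ^ (3 * dg K) := by
          have : (14 : ℝ) = 2 * 7 := by norm_num
          rw [this]
          simp only [mul_pow]
          ring
      _ ≤ C ^ 3 * 42 ^ dg K * Y ^ (3 * dg K) := by
          apply mul_le_mul_of_nonneg_right _ (by positivity)
          exact mul_le_mul (pow_le_pow_right₀ hC (by norm_num))
            (pow_le_pow_left₀ (by norm_num) (by norm_num) _) (by positivity) (by positivity)

end Pool.NFA
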