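import Pool.Agent.H33.NFA.A
import Pool.Agent.H2.NF.ALLN

/-!
# NFA, row SZA: the sizes of the families
-/

set_option autoImplicit false

namespace Pool.NFA

open Polynomial NumberField Pool.NF

open Pool.NF.ALLN in
theorem sza : SZAStmt := by
  intro K _ _
  obtain ⟨c, hc, hL, -⟩ := bxl K
  refine ⟨min (c ^ 2) (c ^ 3), by positivity, ?_⟩
  intro Y hY
  have hY0 : (0 : ℝ) < Y := by linarith only [hY]
  have hY2 : (1 : ℝ) ≤ Y ^ 2 := one_le_pow₀ hY
  have hY3 : (1 : ℝ) ≤ Y ^ 3 := one_le_pow₀ hY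
  have L1 := hL Y hY
  have L2 := hL (Y ^ 2) hY2
  have L3 := hL (Y ^ 3) hY3
  have hf1 := bx_finite (K := K) Y
  have hf2 := bx_finite (K := K) (Y ^ 2)
  have hf3 := bx_finite (K := K) (Y ^ 3)
  have e1 : ((AllN K Y).ncard : ℝ) =
      (Bx K Y).ncard * ((Bx K (Y ^ 2)).ncard * (Bx K (Y ^ 3)).ncard) := by
    rw [all_eq, Set.ncard_image_of_injective _ inj, Set.ncard_prod, Set.ncard_prod]
    push_cast
    rfl
  have e2 : ((ShtN K Y).ncard : ℝ) =
      (Bx K (Y ^ 2)).ncard * (Bx K (Y ^ 3)).ncard := by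
    unfold ShtN
    rw [zer_eq Y hY0.le, Set.ncard_image_of_injective _ inj, Set.ncard_prod, Set.ncard_prod,
      Set.ncard_singleton, one_mul]
    push_cast
    rfl
  have h23 : c ^ 2 * Y ^ (5 * dg K) ≤
      ((Bx K (Y ^ 2)).ncard : ℝ) * (Bx K (Y ^ 3)).ncard := by
    calc c ^ 2 * Y ^ (5 * dg K) = (c * (Y ^ 2) ^ dg K) * (c * (Y ^ 3) ^ dg K) := by ring
      _ ≤ _ := mul_le_mul L2 L3 (by positivity) (Nat.cast_nonneg _)
  refine ⟨?_, ?_, ?_⟩
  · rw [all_eq]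
    exact (hf1.prod (hf2.prod hf3)).image _
  · rw [e1]
    calc min (c ^ 2) (c ^ 3) * Y ^ (6 * dg K) ≤ c ^ 3 * Y ^ (6 * dg K) :=
          mul_le_mul_of_nonneg_right (min_le_right _ _) (by positivity)
      _ = (c * Y ^ dg K) * (c ^ 2 * Y ^ (5 * dg K)) := by ring
      _ ≤ _ := mul_le_mul L1 h23 (by positivity) (Nat.cast_nonneg _)
  · rw [e2]
    exact (mul_le_mul_of_nonneg_right (min_le_left _ _) (by positivity)).trans h23

end Pool.NFA
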